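import Pool.Agent.helper66.PX.Spec

/-!
# Project PX, row SEP: semiprime PI algebras are subdirect in matrix algebras over fields.
-/

set_option autoImplicit false

open Polynomial

noncomputable section

namespace Pool.Agent.PX

universe u v w

/-- the polynomials with coefficients in `I` -/
def SEP_J {K : Type u} {R : Type v} [Field K] [Ring R] [Algebra K R] (I : Submodule K R) (h2 : Two K R I) :
    Ideal R[X] where
  carrier := {p | ∀ i, p.coeff i ∈ I}
  zero_mem' := by intro i; simp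
  add_mem' := by
    intro p q hp hq i
    rw [coeff_add]
    exact I.add_mem (hp i) (hq i)
  smul_mem' := by
    intro c p hp i
    rw [smul_eq_mul, coeff_mul]
    exact I.sum_mem fun x _ => (h2 _ _ (hp _)).1

theorem SEP_mem_J {K : Type u} {R : Type v} [Field K] [Ring R] [Algebra K R] (I : Submodule K R) (h2 : Two K R I)
    (p : R[X]) : p ∈ SEP_J I h2 ↔ ∀ i, p.coeff i ∈ I := Iff.rfl

theorem SEP_J_right {K : Type u} {R : Type v} [Field K] [Ring R] [Algebra K R] (I : Submodule K R) (h2 : Two K R I) :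
    ∀ a ∈ SEP_J I h2, ∀ b : R[X], a * b ∈ SEP_J I h2 := by
  intro a ha b
  rw [SEP_mem_J] at ha ⊢
  intro i
  rw [coeff_mul]
  exact I.sum_mem fun x _ => (h2 _ _ (ha _)).2

/-- `C` as an algebra homomorphism over `K` -/
def SEP_C (K : Type u) (R : Type v) [Field K] [Ring R] [Algebra K R] : R →ₐ[K] R[X] :=
  { (C : R →+* R[X]) with commutes' := fun _ => rfl }

theorem SEP_C_apply {K : Type u} {R : Type v} [Field K] [Ring R] [Algebra K R] (a : R) : SEP_C K R a = C a := rfl

/-- the identity holds on `J` -/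
theorem SEP_id {K : Type u} {R : Type v} [Field K] [Ring R] [Algebra K R] (hEXT : EXT_stmt.{u, v})
    (I : Submodule K R) (h2 : Two K R I) (s : List ℕ) (c : List ℕ → K) (hs : s.Nodup)
    (h : ∀ x : ℕ → R, (∀ i, x i ∈ I) → EV c s x = 0) (x : ℕ → R[X]) (hx : ∀ i, x i ∈ SEP_J I h2) :
    EV c s x = 0 := by
  refine hEXT K R[X] (C '' (I : Set R)) (Set.range fun j : ℕ => (X : R[X]) ^ j) ⟨0, I.zero_mem, C_0⟩ ?_ ?_ s c hs ?_ x ?_
  · rintro _ ⟨j, rfl⟩ a _
    exact X_pow_mul
  · rintro _ ⟨j, rfl⟩ _ ⟨j', rfl⟩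
    exact X_pow_mul
  · intro y hy
    choose a ha hya using hy
    have e : y = fun i => SEP_C K R (a i) := by
      funext i
      rw [← hya i]
      rfl
    rw [e, ← EV_map, h a ha, map_zero]
  · intro i
    have hp := (SEP_mem_J I h2 _).1 (hx i)
    rw [(x i).as_sum_support_C_mul_X_pow]
    refine Submodule.sum_mem _ fun j _ => Submodule.subset_span ⟨X ^ j, ⟨j, rfl⟩, C ((x i).coeff j), ⟨_, hp j, rfl⟩, ?_⟩
    rw [X_pow_mul]

theorem SEP_scalar {L : Type v} [Field L] {n' : ℕ} (A : Matrix (Fin n') (Fin n') L)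
    (h : ∀ B : Matrix (Fin n') (Fin n') L, A * B = B * A) : ∃ μ : L, A = μ • (1 : Matrix (Fin n') (Fin n') L) := by
  have h1 : A ∈ Set.range (Matrix.scalar (Fin n')) := by
    refine Matrix.mem_range_scalar_iff_commute_single'.2 fun i j => ?_
    exact (h _).symm
  obtain ⟨μ, hμ⟩ := h1
  refine ⟨μ, ?_⟩
  rw [← hμ, Matrix.smul_one_eq_diagonal]
  rfl

theorem SEP_eval {K : Type u} {R : Type v} [Field K] [Ring R] [Algebra K R] {L : Type v} [Field L] [Algebra K L]
    {n' : ℕ} (ρ' : R[X] →ₐ[K] Matrix (Fin n') (Fin n') L) (μ : L) (hμ : ρ' X = μ • (1 : Matrix (Fin n') (Fin n') L))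
    (p : R[X]) : ρ' p = ∑ j ∈ p.support, μ ^ j • ρ' (C (p.coeff j)) := by
  conv_lhs => rw [p.as_sum_support_C_mul_X_pow]
  rw [map_sum]
  refine Finset.sum_congr rfl fun j _ => ?_
  rw [map_mul, map_pow, hμ, _root_.smul_pow, one_pow, mul_smul_comm, mul_one]

theorem SEP (hEXT : EXT_stmt.{u, v}) (hNNI : NNI_stmt.{u, v}) (hSM : SM_stmt.{v}) (hSPL : SPL_stmt.{u, v, v}) :
    SEP_stmt.{u, v} := by
  intro K R _ _ _ n I h2 hSem hMI z hz hz0
  obtain ⟨r, hr, hpow⟩ := hNNI K R n I h2 hSem hMI z hz hz0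
  obtain ⟨m, hmax, hm⟩ := hSM R r hpow
  obtain ⟨s, c, hs, hlen, hc, hid⟩ := hMI
  have hsimple : IsSimpleModule R[X] (R[X] ⧸ m) := isSimpleModule_iff_isCoatom.2 hmax.out
  -- `C z` does not act as zero
  have hact : ∃ q : R[X] ⧸ m, (C z : R[X]) • q ≠ 0 := by
    by_contra hcon
    push Not at hcon
    have h1 : ∀ y ∈ Submodule.span K {y : R | ∃ a b : R, y = a * z * b}, ∀ q : R[X] ⧸ m, (C y : R[X]) • q = 0 := by
      intro y hy
      induction hy using Submodule.span_induction with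
      | mem y hy =>
        obtain ⟨a, b, rfl⟩ := hy
        intro q
        rw [C_mul, C_mul, mul_smul, mul_smul, hcon, smul_zero]
      | zero => intro q; rw [C_0, zero_smul]
      | add y y' _ _ ih ih' => intro q; rw [C_add, add_smul, ih, ih', add_zero]
      | smul k y _ ih =>
        intro q
        have e : (C (k • y) : R[X]) = C (algebraMap K R k) * C y := by
          rw [← C_mul, Algebra.smul_def]
        rw [e, mul_smul, ih, smul_zero]
    have h3 : (Submodule.Quotient.mk (1 - C r * X : R[X]) : R[X] ⧸ m) = 0 := (Submodule.Quotient.mk_eq_zero m).2 hm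
    have h4 : (Submodule.Quotient.mk (C r * X : R[X]) : R[X] ⧸ m) = 0 := by
      have e : (Submodule.Quotient.mk (C r * X : R[X]) : R[X] ⧸ m) =
          (C r : R[X]) • (Submodule.Quotient.mk (X : R[X]) : R[X] ⧸ m) := by
        rw [← Submodule.Quotient.mk_smul, smul_eq_mul]
      rw [e, h1 r hr]
    rw [Submodule.Quotient.mk_sub, h4, sub_zero, Submodule.Quotient.mk_eq_zero] at h3
    exact hmax.ne_top ((Ideal.eq_top_iff_one m).2 h3)
  obtain ⟨L, iL, iA, n', ρ', hn1, hn2, hρ, hspan⟩ := hSPL K R[X] (R[X] ⧸ m) hsimple (SEP_J I h2) n (SEP_J_right I h2)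
    ⟨C z, by
      rw [SEP_mem_J]
      intro i
      rw [coeff_C]
      split_ifs
      · exact hz
      · exact I.zero_mem, hact⟩
    ⟨s, c, hs, hlen, hc, fun x hx => SEP_id hEXT I h2 s c hs (fun y hy => (Submodule.mem_bot K).1 (hid y hy)) x hx⟩
  refine ⟨L, iL, iA, n', ρ'.comp (SEP_C K R), hn1, hn2, ?_, ?_⟩
  · intro h0
    obtain ⟨q, hq⟩ := hact
    exact hq ((hρ (C z)).1 h0 q)
  · have hcomm : ∀ B : Matrix (Fin n') (Fin n') L, ρ' X * B = B * ρ' X := by
      intro B
      have hB : B ∈ Submodule.span L (ρ' '' (SEP_J I h2 : Set R[X])) := by rw [hspan]; trivial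
      induction hB using Submodule.span_induction with
      | mem y hy =>
        obtain ⟨p, _, rfl⟩ := hy
        rw [← map_mul, ← map_mul, X_mul]
      | zero => rw [mul_zero, zero_mul]
      | add y y' _ _ ih ih' => rw [mul_add, add_mul, ih, ih']
      | smul k y _ ih => rw [mul_smul_comm, smul_mul_assoc, ih]
    obtain ⟨μ, hμ⟩ := SEP_scalar _ hcomm
    rw [eq_top_iff, ← hspan, Submodule.span_le]
    rintro _ ⟨p, hp, rfl⟩
    have hp' := (SEP_mem_J I h2 p).1 hp
    change ρ' p ∈ Submodule.span L ((ρ'.comp (SEP_C K R)) '' (I : Set R))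
    rw [SEP_eval ρ' μ hμ p]
    exact Submodule.sum_mem _ fun j _ => Submodule.smul_mem _ _ (Submodule.subset_span ⟨p.coeff j, hp' j, rfl⟩)

end Pool.Agent.PX
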